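import Pool.Agent.L0h7.KF.Stm
import Pool.Agent.L0h6.KN.MNO

/-!
# KF: NATR and NAT2
-/

set_option autoImplicit false

open CategoryTheory

noncomputable section

namespace Pool.Agent.L0h26.KF

open Pool.Agent.Y75.NK Pool.Agent.L0h7.KN Pool.Agent.L0h7.KF

theorem cur_ring {A B : Type} [Ring A] [Ring B] (η : A →+* B) (G : Type) [Group G]
    (x : MonoidAlgebra (MonoidAlgebra A G) (Multiplicative ℤ)) :
    (MonoidAlgebra.curryRingEquiv (R := B) (M := Multiplicative ℤ) (N := G)).symm
        (MonoidAlgebra.mapRingHom (Multiplicative ℤ) (MonoidAlgebra.mapRingHom G η) x) =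
      MonoidAlgebra.mapRingHom (Multiplicative ℤ × G) η
        ((MonoidAlgebra.curryRingEquiv (R := A) (M := Multiplicative ℤ) (N := G)).symm x) := by
  induction x using MonoidAlgebra.induction_linear with
  | zero => simp only [map_zero]
  | add x y hx hy => rw [map_add, map_add, map_add, map_add, hx, hy]
  | single m a =>
    induction a using MonoidAlgebra.induction_linear with
    | zero => simp only [MonoidAlgebra.single_zero, map_zero]
    | add x y hx hy => rw [MonoidAlgebra.single_add, map_add, map_add, map_add, map_add, hx, hy]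
    | single n r => simp

/-- the map of group rings -/
abbrev gη {A B : Type} [Ring A] [Ring B] (η : A →+* B) (G : GrpCat.{0}) :
    (gr A).obj G ⟶ (gr B).obj G := RingCat.ofHom (MonoidAlgebra.mapRingHom G η)

theorem theta_ring {A B : Type} [Ring A] [Ring B] (η : A →+* B) : ∀ (m : ℕ) (G : GrpCat.{0})
    (x : (lau m).obj ((gr A).obj G)),
    ((theta B m).hom.app G).hom (((lau m).map (gη η G)).hom x) =
      (gη η ((EF m).obj G)).hom (((theta A m).hom.app G).hom x)
  | 0, G, x => rfl
  | m + 1, G, x => by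
    have h3 : (monF (Multiplicative ℤ)).map (gη η G) ≫
        (cur B).hom.app G = (cur A).hom.app G ≫ gη η (tz.obj G) := by
      apply RingCat.hom_ext
      apply RingHom.ext
      intro x
      exact cur_ring η G x
    have h5 : (lau m).map ((monF (Multiplicative ℤ)).map (gη η G) ≫ (cur B).hom.app G) =
        (lau m).map ((cur A).hom.app G ≫ gη η (tz.obj G)) := congrArg _ h3
    rw [(lau m).map_comp, (lau m).map_comp] at h5
    have h4 : ((lau m).map ((cur B).hom.app G)).hom
        (((lau m).map ((monF (Multiplicative ℤ)).map (gη η G))).hom x) =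
        ((lau m).map (gη η (tz.obj G))).hom (((lau m).map ((cur A).hom.app G)).hom x) :=
      congrArg (fun z => z.hom x) h5
    exact (congrArg ((theta B m).hom.app (tz.obj G)).hom h4).trans
      (theta_ring η m (tz.obj G) _)

theorem theta_inv {A B : Type} [Ring A] [Ring B] (η : A →+* B) (m : ℕ) (G : GrpCat.{0}) :
    (theta A m).inv.app G ≫ (lau m).map (gη η G) =
        gη η ((EF m).obj G) ≫ (theta B m).inv.app G := by
  have hA : (theta A m).inv.app G ≫ (theta A m).hom.app G = 𝟙 _ := Iso.inv_hom_id_app _ _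
  have hB : (theta B m).hom.app G ≫ (theta B m).inv.app G = 𝟙 _ := Iso.hom_inv_id_app _ _
  apply RingCat.hom_ext
  apply RingHom.ext
  intro y
  change ((lau m).map (gη η G)).hom (((theta A m).inv.app G).hom y) =
    ((theta B m).inv.app G).hom ((gη η ((EF m).obj G)).hom y)
  have hB2 : ∀ z, ((theta B m).inv.app G).hom (((theta B m).hom.app G).hom z) = z := fun z =>
    congrArg (fun w => w.hom z) hB
  have hA2 : ((theta A m).hom.app G).hom (((theta A m).inv.app G).hom y) = y :=
    congrArg (fun w => w.hom y) hA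
  rw [← hB2 (((lau m).map (gη η G)).hom (((theta A m).inv.app G).hom y))]
  have h1 := theta_ring η m G (((theta A m).inv.app G).hom y)
  rw [hA2] at h1
  exact congrArg ((theta B m).inv.app G).hom h1

theorem t_NATR : S_NATR := by
  intro A B _ _ η m G e
  have h1 := (projT m).naturality (gη η G)
  have h2 : kclass A m G e = ((projT m).app ((gr A).obj G)).hom
      ((K0F.map ((theta A m).inv.app G)).hom (cls e)) := rfl
  have h3 : kclass B m G (e.map (MonoidAlgebra.mapRingHom _ η)) =
      ((projT m).app ((gr B).obj G)).hom ((K0F.map ((theta B m).inv.app G)).hom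
        ((K0F.map (gη η ((EF m).obj G))).hom (cls e))) := rfl
  rw [h2, h3]
  have h4 : K0F.map ((theta A m).inv.app G ≫ (lau m).map (gη η G)) =
      K0F.map (gη η ((EF m).obj G) ≫ (theta B m).inv.app G) := congrArg _ (theta_inv η m G)
  rw [K0F.map_comp, K0F.map_comp] at h4
  have h5 := congrArg (fun z => z.hom (cls e)) h4
  have h6 := congrArg (fun z => z.hom ((K0F.map ((theta A m).inv.app G)).hom (cls e))) h1
  refine Eq.trans ?_ h6
  exact congrArg ((projT m).app ((gr B).obj G)).hom h5.symm

theorem gmap_comp {A B C : Type} [Ring A] [Ring B] [Ring C] {E H K : Type} [Group E] [Group H]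
    [Group K] (θ : A →+* B) (η : B →+* C) (f : E →* H) (g : H →* K) :
    gmap (η.comp θ) (g.comp f) = ((MonoidAlgebra.mapDomainRingHom C g).comp
      (MonoidAlgebra.mapRingHom H η)).comp (gmap θ f) := by
  apply RingHom.ext
  intro x
  induction x using MonoidAlgebra.induction_linear with
  | zero => simp only [map_zero]
  | add x y hx hy => rw [map_add, map_add, hx, hy]
  | single a r => simp [gmap]

theorem t_NAT2 : S_NAT2 := by
  intro hN r m n d M A B _ _ θ η G H f g ⟨h, h0⟩
  set φ : MonoidAlgebra A ((EF m).obj G) →+* MonoidAlgebra B ((EF m).obj G) :=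
    MonoidAlgebra.mapRingHom _ η with hφ
  set ψ : MonoidAlgebra B ((EF m).obj G) →+* MonoidAlgebra B ((EF m).obj H) :=
    MonoidAlgebra.mapDomainRingHom B ((EF m).map g).hom with hψ
  have hev : ev2 M (η.comp θ) (f ≫ g) = ((ev2 M θ f).map φ).map ψ := by
    unfold ev2
    rw [Matrix.map_map, Matrix.map_map]
    have h1 : ((EF m).map (f ≫ g)).hom = ((EF m).map g).hom.comp ((EF m).map f).hom := by
      rw [(EF m).map_comp]
      rfl
    rw [h1, gmap_comp]
    rfl
  have hi : ev2 M (η.comp θ) (f ≫ g) * ev2 M (η.comp θ) (f ≫ g) =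
      ev2 M (η.comp θ) (f ≫ g) := by
    rw [hev, ← Matrix.map_mul, ← Matrix.map_mul, h]
  refine ⟨hi, ?_⟩
  have h1 : kclass B m G ((⟨d, ev2 M θ f, h⟩ : Idem (MonoidAlgebra A ((EF m).obj G))).map φ) =
      0 :=
    (hN A B η m G ⟨d, ev2 M θ f, h⟩).trans ((congrArg _ h0).trans
      (map_zero ((Kneg m).map (gη η G)).hom))
  have h2 := (Pool.Agent.L0h6.KN.kclass_nat B m G H g
    ((⟨d, ev2 M θ f, h⟩ : Idem (MonoidAlgebra A ((EF m).obj G))).map φ)).trans
      ((congrArg _ h1).trans (map_zero _))
  have h3 : (⟨d, ev2 M (η.comp θ) (f ≫ g), hi⟩ : Idem (MonoidAlgebra B ((EF m).obj H))) =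
      ((⟨d, ev2 M θ f, h⟩ : Idem (MonoidAlgebra A ((EF m).obj G))).map φ).map ψ := by
    unfold Idem.map
    congr 1
  rw [h3]
  exact h2

end Pool.Agent.L0h26.KF
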